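import Pool.Agent.Helper34.PW.SlimD

/-!
# The pro-`p` Freiheitssatz up to `p`-divisible relators

`F` is a free pro-`p` group with basis `ι : X → F`, `r ∈ F` is any element, `X'` a minimal subset of
`X` such that some element associated to `r` depends on `X'`, and `x ∈ X'`. Then `X \ {x}` stays free
modulo `R = r^F`, except possibly when there are `t ∈ F(X \ {x})`, `s ∈ F` and `j ≥ 1` with
`t^F = s^F =: T` and `r ∈ s^(p^j) [T, T]`; in this exceptional case the completed group algebra of
`F / T` has no zero divisors and the one of `F / R` has zero divisors.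

The proof: call a closed normal subgroup `B` good if `𝔽_p[[F/B]]` has no zero divisors. Goodness passes
to intersections of chains and from `B` to `C` if `B / C` is a torsion free abelian group. A minimal
good subgroup containing `r` is the closed normal closure of a single element `s`, and `r ∈ s^(p^j) [B, B]`.
If no element associated to `s` depends on `X \ {x}`, then continuous crossed homomorphisms from `F` to the
groups of locally constant functions `F / B → P`, `P` a finite `p`-group, show that `F(X \ {x}) ∩ B = 1`.
-/

set_option autoImplicit false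

universe u

namespace Pool.Agent.Results.MP_0beb95_al.Dichotomy

open Pool.Agent.Helper85.PF

/-- `h` is a locally constant function on `F / C`. -/
def IsLC (p : ℕ) {F : Type u} [Group F] [TopologicalSpace F] (C : Subgroup F)
    (h : F → ZMod p) : Prop :=
  IsLocallyConstant h ∧ ∀ a, ∀ c ∈ C, h (a * c) = h a

/-- The completed group algebra `𝔽_p[[F / C]]`, the dual of the space of locally constant functions on
`F / C` with the convolution product, has no zero divisors. (Linear functionals on this space are the
restrictions of linear functionals on all functions.) -/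
def NoZD (p : ℕ) {F : Type u} [Group F] [TopologicalSpace F] (C : Subgroup F) : Prop :=
  ∀ μ ν : (F → ZMod p) →ₗ[ZMod p] ZMod p,
    (∀ h, IsLC p C h → μ (fun a => ν fun b => h (a * b)) = 0) →
      (∀ h, IsLC p C h → μ h = 0) ∨ ∀ h, IsLC p C h → ν h = 0

/-- For every free pro-`p` group `F` with basis `ι : X → F`, every `r`, every minimal `X'` and every
`x ∈ X'`: the set `X \ {x}` stays free modulo `R = r^F`, or else `r` is, modulo `[T, T]`, a `p^j`-th power
(`j ≥ 1`) of a generator `s` of `T = t^F` for some `t ∈ F(X \ {x})`, where `𝔽_p[[F / T]]` has no zero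
divisors and `𝔽_p[[F / R]]` has zero divisors. -/
theorem result (p : ℕ) [Fact p.Prime] {X F : Type u} [Group F] [TopologicalSpace F]
    [IsTopologicalGroup F] (ι : X → F) (hF : IsFreeProP p ι) (r : F) (X' : Set X)
    (hX' : Minimal (Dep ι r) X') (x : X) (hx : x ∈ X') :
    StaysFree ι r x ∨
      (∃ t ∈ FY ι {x}ᶜ, ∃ (s : F) (j : ℕ), 1 ≤ j ∧ RN s = RN t ∧
        r * (s ^ p ^ j)⁻¹ ∈ (⁅RN t, RN t⁆ : Subgroup F).topologicalClosure ∧ NoZD p (RN t)) ∧
      ¬ NoZD p (RN r) :=
  Helper34.PW.dichotomy ι hF r X' hX' x hx

end Pool.Agent.Results.MP_0beb95_al.Dichotomy
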