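import Pool.Agent.Helper34.PW.Slim

/-!
# The pro-`p` Freiheitssatz for powers of elements with free relation module

`F` is a free pro-`p` group with basis `ι : X → F`, `s ∈ F` and `T = s^F`. Suppose that the relation module
`T / T^p[T, T]` is the free `𝔽_p[[F/T]]`-module on the image of `s` (the identity property of `s`; it says
that the one-relator group `F / T` has cohomological dimension at most two). Then Q1 holds for all
relators `r` which are associated to a proper power `s ^ p ^ j`, `j ≥ 1`: for every minimal `X'` and
every `x ∈ X'` the set `X \ {x}` stays free modulo `r^F`.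

The proof: let `Y = F(X \ {x})` and `R = (s^q)^F`, `q = p^j`. If some conjugate of `s` is congruent modulo `R`
to `τ ∈ Y`, then a crossed homomorphism with values in `ℤ/p^(j+1)` shows that `τ^q` is associated to `s^q`,
which contradicts the choice of `X'`. Otherwise let `K` be an open normal subgroup such that no conjugate of `s`
lies in `Y R K`, `Q = F / R K` and `Ω = F / Y R K`. The image `σ` of `s` in `Q` has no fixed point on `Ω`. For every
homomorphism `θ` from `F` to a finite `p`-group `P` one constructs, by induction over central subgroups of order
`p`, a crossed homomorphism `G` from `F` to the group of locally constant functions from `F / T` to the wreath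
product `(Ω → P) ⋊ Q` which has one coordinate `θ` on `Y` and whose values at `s` are conjugate to `(1; σ)`. It
kills `s^q`, hence `R`. So `Y ∩ R = 1`.
-/

set_option autoImplicit false

universe u

namespace Pool.Agent.Results.MP_0beb95_al.PowerRelators

open Pool.Agent.Helper85.PF

/-- The relation module `T / T^p[T, T]`, `T = s^F`, of the relator `s` is a free `𝔽_p[[F / T]]`-module on the
image of `s`. In dual terms: every locally constant function `f : F / T → 𝔽_p` has the form
`a ↦ γ (a⁻¹ s a)` for a continuous homomorphism `γ : T → 𝔽_p`. -/
def FreeRelationModule (p : ℕ) {F : Type u} [Group F] [TopologicalSpace F] [IsTopologicalGroup F]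
    (s : F) : Prop :=
  ∀ f : F → ZMod p, IsLocallyConstant f → (∀ a, ∀ t ∈ RN s, f (a * t) = f a) →
    ∃ γ : F → ZMod p, ContinuousOn γ (RN s) ∧
      (∀ t ∈ RN s, ∀ t' ∈ RN s, γ (t * t') = γ t + γ t') ∧ ∀ a, γ (a⁻¹ * s * a) = f a

/-- Let `F` be a free pro-`p` group and let `s ∈ F` be an element with free relation module. Then Q1
holds, with respect to every basis `ι : X → F`, for every relator `r` which is associated to
`s ^ p ^ j` for some `j ≥ 1`. -/
theorem result (p : ℕ) [Fact p.Prime] {X F : Type u} [Group F] [TopologicalSpace F]
    [IsTopologicalGroup F] (ι : X → F) (hι : IsFreeProP p ι) (s : F)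
    (hs : FreeRelationModule p s) (j : ℕ) (hj : 1 ≤ j) (r : F) (hr : RN r = RN (s ^ p ^ j)) :
    Q1 ι r :=
  Helper34.PW.q1_of_free hι s hs j hj r hr

end Pool.Agent.Results.MP_0beb95_al.PowerRelators
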