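import Pool.Agent.Helper34.PW.Depth

/-!
# The Freiheitssatz for one-relator pro-p groups: elements of depth prime to p and their powers

Let `F` be a free pro-`p` group with bases `ι` and `κ`, and let `c w g` be the coefficient of the word
`w` in the Magnus expansion of `g` over `ZMod p` with respect to `κ` (`κ z ↦ 1 + z`).  Let `s` be an
element such that for some positive integer weights the least weight of a nonempty word `w` with
`c w s ≠ 0` is not divisible by `p`.  Then Q1 holds for every relator `r` associated to `s` or to a
power `s ^ p ^ j`: for every minimal set `X'` such that an element associated to `r` depends on `X'`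
and for every `x ∈ X'`, the set `X \ {x}` stays free modulo the closed normal closure of `r`.

The completed group algebra over `ZMod p` of `F / s^F` has no zero divisors, as the initial form of
`s` is a Lie polynomial.  So the case `j = 0` follows by Fox calculus, and the relation module of `s`
is free, which gives the case `j ≥ 1` by crossed homomorphisms to wreath products.
-/

set_option autoImplicit false

universe u

namespace Pool.Agent.Results.MP_0beb95_al.PowersOfDepthPrimeToP

open Pool.Agent.Helper85.PF

section

variable {Z F : Type u} [Group F] [TopologicalSpace F] {p : ℕ}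

/-- `c w g` is the coefficient of the word `w` in the Magnus expansion of `g`, for the basis `κ`: the
expansion is continuous and multiplicative, with constant term `1`, and that of `κ z` is `1 + z`. -/
structure IsMagnus (κ : Z → F) (c : List Z → F → ZMod p) : Prop where
  continuous : ∀ w, IsLocallyConstant (c w)
  nil : ∀ g, c [] g = 1
  mul : ∀ w g h, c w (g * h) =
    ∑ i ∈ Finset.range (w.length + 1), c (w.take i) g * c (w.drop i) h
  basis : ∀ z, c [z] (κ z) = 1
  basis_eq_zero : ∀ z w, w ≠ [] → w ≠ [z] → c w (κ z) = 0

/-- `n` is the depth of `s` for the weights `wt`: the least weight of a nonempty word with nonzero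
coefficient. -/
structure IsDepth (c : List Z → F → ZMod p) (wt : Z → ℕ) (s : F) (n : ℕ) : Prop where
  eq_zero : ∀ w : List Z, w ≠ [] → (w.map wt).sum < n → c w s = 0
  exists_ne : ∃ w : List Z, w ≠ [] ∧ (w.map wt).sum = n ∧ c w s ≠ 0

end

theorem result (p : ℕ) [Fact p.Prime] {X Z F : Type u} [Group F] [TopologicalSpace F]
    [IsTopologicalGroup F] (ι : X → F) (hι : IsFreeProP p ι) (κ : Z → F)
    (hκ : IsFreeProP p κ) :
    ∃ c : List Z → F → ZMod p, IsMagnus κ c ∧
      ∀ s : F, ∀ wt : Z → ℕ, (∀ z, 0 < wt z) → ∀ n : ℕ, IsDepth c wt s n → ¬ p ∣ n →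
        ∀ j : ℕ, ∀ r : F, RN r = RN (s ^ p ^ j) → Q1 ι r := by
  obtain ⟨ν, hν⟩ := exists_magnus hκ
  refine ⟨fun w g => ν g w, ⟨fun w => ?_, fun g => ?_, fun w g h => ?_, fun z => ?_,
    fun z w h1 h2 => ?_⟩, fun s wt hwt n hd hn j r hr => ?_⟩
  · exact (IsLocallyConstant.iff_continuous _).2 ((NC.continuous_apply w).comp hν.cont)
  · have h1 : ν g [] = 1 := magnus_nil hκ hν g
    exact h1
  · rw [map_mul, NC.mul_apply_sum]
  · change ν (κ z) [z] = 1
    rw [hν.var]
    simp [NC.var]
  · change ν (κ z) w = 0
    rw [hν.var]
    cases w with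
    | nil => exact absurd rfl h1
    | cons y w => simp [NC.var, h2]
  · exact Helper34.PW.depth_main hι hκ hν r s j hr wt hwt n ⟨hd.eq_zero, hd.exists_ne⟩ hn

end Pool.Agent.Results.MP_0beb95_al.PowersOfDepthPrimeToP
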