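import Mathlib
import Pool.Agent.Helper34.FHS.Defs
import Pool.Agent.Helper34.FHS.St.PB2
import Pool.Agent.Helper34.FHS.St.FIN

/-!
# A rational Freiheitssatz for all one-relator pro-p groups
-/

namespace Pool.Agent.Results.MP_0beb95_al.RationalFreiheitssatz

open Pool.Agent.Helper34.FHS

universe u v

/-- Let `F` be the free pro-`p` group with basis `ι : X → F`, `r ∈ F`, `x ∈ X`, and `π : F → F` the
retraction killing `ι x`. Either `X ∖ {x}` stays free modulo the closed normal subgroup generated
by `r`, or no continuous unipotent representation over `ℚ_p` distinguishes the relators `r` and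
`π r`. -/
theorem result (p : ℕ) [Fact p.Prime] (X : Type u) (F : Type v) [Group F] [TopologicalSpace F]
    [IsTopologicalGroup F] [CompactSpace F] [T2Space F] [TotallyDisconnectedSpace F] (ι : X → F)
    (hF : IsFreeProP p ι) (r : F) (x : X) :
    ∃ π : F →* F, Continuous π ∧ π (ι x) = 1 ∧ (∀ y, y ≠ x → π (ι y) = ι y) ∧
      (StaysFree ι r x ∨
        ∀ (n : ℕ) (θ : F →* Matrix (Fin n) (Fin n) ℚ_[p]), IsUnip θ →
          {z | θ (ι z) ≠ 1}.Finite →
          (θ r = 1 ↔ θ (π r) = 1) ∧
            ((∀ k, π k = 1 → Commute (θ (π r)) (θ k)) → θ r = θ (π r))) := by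
  obtain ⟨π, hπ, hx, hy⟩ := hF.exists_retract x
  refine ⟨π, hπ, hx, hy, ?_⟩
  by_cases hs : StaysFree ι r x
  · exact Or.inl hs
  · right
    intro n θ hθ hfin
    exact rational_freiheitssatz hF r x hπ hx hy hs θ hθ hfin

end Pool.Agent.Results.MP_0beb95_al.RationalFreiheitssatz
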